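import Pool.Agent.X195.TR5

/-!
# MP_8916ec_co: tropical rank equals dimension for finitely generated semimodules of functions

Definitions (all in `Pool.Agent.X195.TR`, repeated here for the reader).
For `g : Fin l → Y → ℝ` (the finite-valued generators):

* `InSpan g f`: the real-valued function `f` is of the form `min_j (g_j + a_j)` with
  coefficients `a_j ∈ ℝ ∪ {∞}`, i.e. `f` is a finite-valued element of the `𝕋`-semimodule `M`
  generated by the `g_j`.
* `Psi g c = min_j (g_j + c_j)` for `c ∈ ℝ^l`, and `fib g f = Ψ⁻¹(f) ⊆ ℝ^l`.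
* `PolyDim S k`: `S` is a finite union of nonempty closed convex polyhedra, the largest
  dimension of which is `k`.
* `DepReal f`: tropical dependence with real coefficients; `DepInf f`: tropical dependence
  with coefficients in `ℝ ∪ {∞}`, not all `∞`.
* `gH`: the two functions `0` and `-x` on `[0, ∞)`.
-/

namespace Pool.Agent.Results.MP_8916ec_co.TropicalRankEqDimension

open Pool.Agent.X195.TR

theorem result :
    -- (1) compact `Y`, real coefficients: every finite-valued element of `M` has a fibre of a
    -- well-defined dimension, and the tropical rank is the dimension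
    (∀ (Y : Type) [TopologicalSpace Y] [CompactSpace Y] [Nonempty Y] (l : ℕ) (_ : 0 < l)
      (g : Fin l → Y → ℝ) (_ : ∀ j, Continuous (g j)),
      (∀ f, InSpan g f → ∃! k, PolyDim (fib g f) k) ∧
      ∃ D : ℕ,
        IsGreatest {r : ℕ | ∃ f : Fin r → Y → ℝ, (∀ i, InSpan g (f i)) ∧ ¬ DepReal f} D ∧
        IsGreatest {d : ℕ | ∃ f k, InSpan g f ∧ PolyDim (fib g f) k ∧ d = l - k} D) ∧
    -- (2) arbitrary nonempty `Y` and arbitrary real functions, coefficients in `ℝ ∪ {∞}`
    (∀ (Y : Type) [Nonempty Y] (l : ℕ) (_ : 0 < l) (g : Fin l → Y → ℝ),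
      ∃ D : ℕ,
        IsGreatest {r : ℕ | ∃ f : Fin r → Y → ℝ, (∀ i, InSpan g (f i)) ∧ ¬ DepInf f} D ∧
        IsGreatest {d : ℕ | ∃ f k, InSpan g f ∧ PolyDim (fib g f) k ∧ d = l - k} D) ∧
    -- (3) on the half line, with real coefficients only, the equality fails: the semimodule
    -- generated by `0` and `-x` has dimension 2 and contains arbitrarily large families of
    -- distinct functions which are independent
    (IsGreatest {d : ℕ | ∃ f k, InSpan gH f ∧ PolyDim (fib gH f) k ∧ d = 2 - k} 2 ∧
      ∀ r : ℕ, ∃ f : Fin r → Set.Ici (0:ℝ) → ℝ, Function.Injective f ∧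
        (∀ i, InSpan gH (f i)) ∧ ¬ DepReal f) := by
  refine ⟨?_, ?_, half_dim, half_indep⟩
  · intro Y _ _ _ l hl g hg
    have : NeZero l := ⟨hl.ne'⟩
    exact main_compact g hg
  · intro Y _ l hl g
    have : NeZero l := ⟨hl.ne'⟩
    exact main g

end Pool.Agent.Results.MP_8916ec_co.TropicalRankEqDimension
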